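import Mathlib

/-!
# A component of an intersection of balanced complexes without a stable point

In `ℝ⁴` let `Σ₁` be the affine plane `{y₁ = 0, y₂ + y₃ = 1}` (coordinates `y₀, y₁, y₂, y₃`) and let
`Σ₂` be the fan consisting of the orthants of the three coordinate planes `⟨e₀, e₂⟩`, `⟨e₀, e₁⟩`,
`⟨e₁, e₃⟩`. The line `{(t, 0, 1, 0)}` is a connected component of `|Σ₁| ∩ |Σ₂|` without a point of
the stable intersection, which is not empty.
-/

set_option autoImplicit false

open Pointwise

namespace Pool.Agent.Results.MP_7d0545_co.NoStablePoint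

/-- A polyhedron: the solution set of finitely many linear inequalities. -/
def IsPolyhedron {n : ℕ} (σ : Set (Fin n → ℝ)) : Prop :=
  ∃ s : Finset ((Fin n → ℝ) × ℝ), σ = {x | ∀ p ∈ s, p.1 ⬝ᵥ x ≤ p.2}

/-- The inclusion `ℤⁿ ⊆ ℝⁿ`. -/
def toR {n : ℕ} (z : Fin n → ℤ) : Fin n → ℝ := fun i => (z i : ℝ)

/-- The dimension of `σ`. The submodule `vectorSpan ℝ σ` is the linear span of `σ - σ`. -/
noncomputable def dim {n : ℕ} (σ : Set (Fin n → ℝ)) : ℕ := Module.finrank ℝ (vectorSpan ℝ σ)

/-- The affine span of `σ` is parallel to a subspace spanned by integer vectors. -/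
def IsRational {n : ℕ} (σ : Set (Fin n → ℝ)) : Prop :=
  ∃ S : Set (Fin n → ℤ), vectorSpan ℝ σ = Submodule.span ℝ (toR '' S)

/-- `τ` is the (possibly empty) face of `σ` on which the functional `a` is maximal. -/
def IsFaceOf {n : ℕ} (τ σ : Set (Fin n → ℝ)) : Prop :=
  ∃ a : Fin n → ℝ, τ = {x | x ∈ σ ∧ ∀ y ∈ σ, a ⬝ᵥ y ≤ a ⬝ᵥ x}

/-- `u` is a primitive integer normal vector of `τ` pointing into `σ`: it is an integer vector
which together with the integer vectors in the linear span of `τ - τ` generates the lattice of the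
integer vectors in the linear span of `σ - σ`, and it points from a point of `τ` into `σ`. -/
def IsPrimitiveNormal {n : ℕ} (τ σ : Set (Fin n → ℝ)) (u : Fin n → ℤ) : Prop :=
  (∀ z : Fin n → ℤ, toR z ∈ vectorSpan ℝ σ ↔ ∃ m : ℤ, toR (z - m • u) ∈ vectorSpan ℝ τ) ∧
    ∃ x ∈ τ, ∃ ε : ℝ, 0 < ε ∧ x + ε • toR u ∈ σ

/-- A balanced (rational, pure, weighted) polyhedral complex in `ℝⁿ`. -/
structure BalancedComplex (n : ℕ) where
  /-- The cells. -/
  cells : Set (Set (Fin n → ℝ))
  finite : cells.Finite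
  nonempty_cell : ∀ σ ∈ cells, σ.Nonempty
  polyhedron : ∀ σ ∈ cells, IsPolyhedron σ
  rational : ∀ σ ∈ cells, IsRational σ
  face_mem : ∀ σ ∈ cells, ∀ τ : Set (Fin n → ℝ), IsFaceOf τ σ → τ.Nonempty → τ ∈ cells
  inter_face : ∀ σ ∈ cells, ∀ τ ∈ cells, (σ ∩ τ).Nonempty →
    IsFaceOf (σ ∩ τ) σ ∧ IsFaceOf (σ ∩ τ) τ
  /-- The dimension of the complex. -/
  d : ℕ
  pure : ∀ σ ∈ cells, ∃ ρ ∈ cells, dim ρ = d ∧ σ ⊆ ρ
  /-- The weights (relevant for the `d`-dimensional cells only). -/
  weight : Set (Fin n → ℝ) → ℕ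
  weight_pos : ∀ σ ∈ cells, dim σ = d → 0 < weight σ
  balanced : ∀ τ ∈ cells, dim τ + 1 = d → ∃ u : Set (Fin n → ℝ) → (Fin n → ℤ),
    (∀ σ ∈ cells, dim σ = d → τ ⊆ σ → IsPrimitiveNormal τ σ (u σ)) ∧
    toR (∑ᶠ σ ∈ {σ | σ ∈ cells ∧ dim σ = d ∧ τ ⊆ σ}, weight σ • u σ) ∈ vectorSpan ℝ τ

namespace BalancedComplex

variable {n : ℕ}

/-- The support `|Σ|`. -/
def support (S : BalancedComplex n) : Set (Fin n → ℝ) := ⋃₀ S.cells

/-- The support of the stable intersection of two balanced complexes. -/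
def stableSupport (S T : BalancedComplex n) : Set (Fin n → ℝ) :=
  {x | ∃ σ ∈ S.cells, ∃ τ ∈ T.cells, dim (σ + τ) = n ∧ x ∈ σ ∩ τ}

/-- Two `d`-cells are adjacent if they share a cell of dimension `d - 1`. -/
def Adjacent (S : BalancedComplex n) (σ σ' : Set (Fin n → ℝ)) : Prop :=
  (σ ∈ S.cells ∧ dim σ = S.d) ∧ (σ' ∈ S.cells ∧ dim σ' = S.d) ∧
    ∃ τ ∈ S.cells, dim τ + 1 = S.d ∧ τ ⊆ σ ∧ τ ⊆ σ'

/-- The complex is connected through codimension one. -/
def ConnectedThroughCodimOne (S : BalancedComplex n) : Prop :=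
  ∀ σ ∈ S.cells, dim σ = S.d → ∀ σ' ∈ S.cells, dim σ' = S.d →
    Relation.ReflTransGen S.Adjacent σ σ'

end BalancedComplex

/-! ### Orthants of coordinate subspaces -/

section orthant

variable {n : ℕ}

/-- The closed cone of all `y` with `yᵢ = 0` or `sign yᵢ = εᵢ` for all `i`. -/
def cone (ε : Fin n → SignType) : Set (Fin n → ℝ) :=
  {y | ∀ i, 0 ≤ (ε i : ℝ) * y i ∧ (ε i = 0 → y i = 0)}

/-- `ε' ≼ ε`: every coordinate of `ε'` is `0` or equal to that of `ε`. -/
def sle (ε' ε : Fin n → SignType) : Prop := ∀ i, ε' i = 0 ∨ ε' i = ε i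

/-- The number of nonzero coordinates. -/
def num (ε : Fin n → SignType) : ℕ := (Finset.univ.filter fun i => ε i ≠ 0).card

lemma zero_mem_cone (ε : Fin n → SignType) : (0 : Fin n → ℝ) ∈ cone ε := by
  intro i
  simp

lemma sign_mul_self {s : SignType} (h : s ≠ 0) : (s : ℝ) * s = 1 := by
  cases s
  · exact absurd rfl h
  · simp
  · simp

/-- The scaled unit vector `t εᵢ eᵢ`. -/
lemma single_mem_cone (ε : Fin n → SignType) (i : Fin n) {t : ℝ} (ht : 0 ≤ t) :
    Pi.single i (t * (ε i : ℝ)) ∈ cone ε := by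
  intro j
  rcases eq_or_ne j i with rfl | hne
  · simp only [Pi.single_eq_same]
    constructor
    · have : (ε j : ℝ) * (t * (ε j : ℝ)) = t * ((ε j : ℝ) * (ε j : ℝ)) := by ring
      rw [this]
      exact mul_nonneg ht (mul_self_nonneg _)
    · intro h
      rw [h]
      simp
  · simp only [Pi.single_eq_of_ne hne]
    simp

lemma cone_add_mem {ε : Fin n → SignType} {x y : Fin n → ℝ} (hx : x ∈ cone ε) (hy : y ∈ cone ε) :
    x + y ∈ cone ε := by
  intro i
  constructor
  · rw [Pi.add_apply, mul_add]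
    exact add_nonneg (hx i).1 (hy i).1
  · intro h
    rw [Pi.add_apply, (hx i).2 h, (hy i).2 h, add_zero]

lemma cone_isPolyhedron (ε : Fin n → SignType) : IsPolyhedron (cone ε) := by
  classical
  refine ⟨(Finset.univ.image fun i => (Pi.single i (-(ε i : ℝ)), 0)) ∪
    ((Finset.univ.filter fun i => ε i = 0).image fun i => (Pi.single i 1, 0)) ∪
    ((Finset.univ.filter fun i => ε i = 0).image fun i => (Pi.single i (-1), 0)), ?_⟩
  ext y
  simp only [cone, Set.mem_ofPred_eq, Finset.mem_union, Finset.mem_image, Finset.mem_univ,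
    true_and, Finset.mem_filter]
  constructor
  · rintro h _ ((⟨i, rfl⟩ | ⟨i, hi, rfl⟩) | ⟨i, hi, rfl⟩)
    · simp only [single_dotProduct]
      have := (h i).1
      linarith
    · simp only [single_dotProduct]
      have := (h i).2 hi
      linarith
    · simp only [single_dotProduct]
      have := (h i).2 hi
      linarith
  · intro h i
    constructor
    · have := h _ (Or.inl (Or.inl ⟨i, rfl⟩))
      simp only [single_dotProduct] at this
      linarith
    · intro hi
      have h1 := h _ (Or.inl (Or.inr ⟨i, hi, rfl⟩))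
      have h2 := h _ (Or.inr ⟨i, hi, rfl⟩)
      simp only [single_dotProduct] at h1 h2
      linarith

/-- The linear span of a cone. -/
lemma mem_vectorSpan_cone (ε : Fin n → SignType) (y : Fin n → ℝ) :
    y ∈ vectorSpan ℝ (cone ε) ↔ ∀ i, ε i = 0 → y i = 0 := by
  classical
  constructor
  · intro h i hi
    have hle : vectorSpan ℝ (cone ε) ≤ LinearMap.ker (LinearMap.proj i : (Fin n → ℝ) →ₗ[ℝ] ℝ) := by
      rw [vectorSpan_def, Submodule.span_le]
      rintro _ ⟨p, hp, q, hq, rfl⟩
      simp only [SetLike.mem_coe, LinearMap.mem_ker, LinearMap.proj_apply]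
      change p i - q i = 0
      rw [(hp i).2 hi, (hq i).2 hi, sub_zero]
    exact hle h
  · intro h
    have h1 : y = ∑ i, Pi.single i (y i) := (Finset.univ_sum_single y).symm
    rw [h1]
    apply Submodule.sum_mem
    intro i _
    by_cases hi : ε i = 0
    · rw [h i hi]
      simp
    · have h2 : Pi.single i (y i) = (y i * (ε i : ℝ)) •
          (Pi.single i (1 * (ε i : ℝ)) -ᵥ (0 : Fin n → ℝ)) := by
        rw [vsub_eq_sub, sub_zero, ← Pi.single_smul, smul_eq_mul]
        congr 1
        have := sign_mul_self hi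
        rw [one_mul, mul_assoc, this, mul_one]
      rw [h2]
      apply Submodule.smul_mem
      exact vsub_mem_vectorSpan ℝ (single_mem_cone ε i zero_le_one) (zero_mem_cone ε)

lemma vectorSpan_cone (ε : Fin n → SignType) : vectorSpan ℝ (cone ε) =
    Submodule.span ℝ (Set.range fun i : {i // ε i ≠ 0} => (Pi.single (i : Fin n) 1 : Fin n → ℝ)) := by
  classical
  apply le_antisymm
  · intro y hy
    rw [mem_vectorSpan_cone] at hy
    have h1 : y = ∑ i, Pi.single i (y i) := (Finset.univ_sum_single y).symm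
    rw [h1]
    apply Submodule.sum_mem
    intro i _
    by_cases hi : ε i = 0
    · rw [hy i hi]
      simp
    · have h2 : (Pi.single i (y i) : Fin n → ℝ) = y i • Pi.single i 1 := by
        rw [← Pi.single_smul, smul_eq_mul, mul_one]
      rw [h2]
      apply Submodule.smul_mem
      exact Submodule.subset_span ⟨⟨i, hi⟩, rfl⟩
  · rw [Submodule.span_le]
    rintro _ ⟨⟨i, hi⟩, rfl⟩
    rw [SetLike.mem_coe, mem_vectorSpan_cone]
    intro j hj
    have : j ≠ i := by
      rintro rfl
      exact hi hj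
    simp [this]

lemma dim_cone (ε : Fin n → SignType) : dim (cone ε) = num ε := by
  classical
  unfold dim
  rw [vectorSpan_cone]
  have hli : LinearIndependent ℝ
      (fun i : {i // ε i ≠ 0} => (Pi.single (i : Fin n) 1 : Fin n → ℝ)) := by
    have h := (Pi.basisFun ℝ (Fin n)).linearIndependent.comp
      (fun i : {i // ε i ≠ 0} => (i : Fin n)) Subtype.val_injective
    convert h using 1
    ext i
    simp
  rw [finrank_span_eq_card hli]
  unfold num
  rw [Fintype.card_subtype]

lemma cone_isRational (ε : Fin n → SignType) : IsRational (cone ε) := by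
  classical
  refine ⟨Set.range fun i : {i // ε i ≠ 0} => (Pi.single (i : Fin n) 1 : Fin n → ℤ), ?_⟩
  rw [vectorSpan_cone, ← Set.range_comp]
  congr 2
  ext i j
  simp only [Function.comp_apply, toR, Pi.single_apply]
  split_ifs <;> simp

lemma cone_mono {ε' ε : Fin n → SignType} (h : sle ε' ε) : cone ε' ⊆ cone ε := by
  intro y hy i
  rcases h i with h0 | h0
  · have := (hy i).2 h0
    rw [this]
    simp
  · rw [← h0]
    exact hy i

lemma sle_of_subset {ε' ε : Fin n → SignType} (h : cone ε' ⊆ cone ε) : sle ε' ε := by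
  intro i
  by_cases hi : ε' i = 0
  · exact Or.inl hi
  · right
    have h1 := h (single_mem_cone ε' i zero_le_one) i
    rw [Pi.single_eq_same, one_mul] at h1
    obtain ⟨h2, h3⟩ := h1
    revert h2 h3 hi
    generalize ε' i = a
    generalize ε i = b
    cases a <;> cases b <;> simp

lemma sle_antisymm {ε' ε : Fin n → SignType} (h : sle ε' ε) (h' : sle ε ε') : ε' = ε := by
  ext1 i
  rcases h i with h1 | h1
  · rcases h' i with h2 | h2
    · rw [h1, h2]
    · exact h2.symm
  · exact h1

lemma cone_injective : Function.Injective (cone : (Fin n → SignType) → Set (Fin n → ℝ)) :=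
  fun _ _ h => sle_antisymm (sle_of_subset h.le) (sle_of_subset h.ge)

/-- The meet of two sign vectors. -/
def meet (ε ε' : Fin n → SignType) : Fin n → SignType := fun i => if ε i = ε' i then ε i else 0

lemma meet_sle_left (ε ε' : Fin n → SignType) : sle (meet ε ε') ε := by
  intro i
  unfold meet
  split_ifs <;> simp

lemma meet_sle_right (ε ε' : Fin n → SignType) : sle (meet ε ε') ε' := by
  intro i
  unfold meet
  split_ifs with h
  · exact Or.inr h
  · exact Or.inl rfl

lemma cone_inter (ε ε' : Fin n → SignType) : cone ε ∩ cone ε' = cone (meet ε ε') := by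
  apply Set.Subset.antisymm
  · rintro y ⟨h1, h2⟩ i
    unfold meet
    split_ifs with h
    · exact h1 i
    · constructor
      · simp
      · intro _
        obtain ⟨a1, a2⟩ := h1 i
        obtain ⟨b1, b2⟩ := h2 i
        revert a1 a2 b1 b2 h
        generalize ε i = a
        generalize ε' i = b
        generalize y i = t
        cases a <;> cases b <;> simp <;> intros <;> linarith
  · exact Set.subset_inter (cone_mono (meet_sle_left ε ε')) (cone_mono (meet_sle_right ε ε'))

lemma isFaceOf_of_sle {ε' ε : Fin n → SignType} (h : sle ε' ε) :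
    IsFaceOf (cone ε') (cone ε) := by
  classical
  refine ⟨fun i => if ε' i = 0 then -(ε i : ℝ) else 0, ?_⟩
  have hle : ∀ y ∈ cone ε, ∀ i, (if ε' i = 0 then -(ε i : ℝ) else 0) * y i ≤ 0 := by
    intro y hy i
    split_ifs with h0
    · have := (hy i).1
      linarith
    · simp
  ext x
  constructor
  · intro hx
    refine ⟨cone_mono h hx, fun y hy => ?_⟩
    have h0 : (fun i => if ε' i = 0 then -(ε i : ℝ) else 0) ⬝ᵥ x = 0 := by
      unfold dotProduct
      apply Finset.sum_eq_zero
      intro i _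
      change (if ε' i = 0 then -(ε i : ℝ) else 0) * x i = 0
      split_ifs with h1
      · rw [(hx i).2 h1, mul_zero]
      · simp
    rw [h0]
    exact Finset.sum_nonpos fun i _ => hle y hy i
  · rintro ⟨hx, hmax⟩
    have h0 := hmax 0 (zero_mem_cone ε)
    rw [dotProduct_zero] at h0
    have hsum : ∑ i, (if ε' i = 0 then -(ε i : ℝ) else 0) * x i = 0 :=
      le_antisymm (Finset.sum_nonpos fun i _ => hle x hx i) h0
    have hz := (Finset.sum_eq_zero_iff_of_nonpos fun i _ => hle x hx i).1 hsum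
    intro i
    by_cases h1 : ε' i = 0
    · have h2 := hz i (Finset.mem_univ i)
      rw [if_pos h1] at h2
      have h3 : x i = 0 := by
        by_cases h4 : ε i = 0
        · exact (hx i).2 h4
        · have h5 := sign_mul_self h4
          have h6 : (ε i : ℝ) * x i = 0 := by linarith
          calc x i = (ε i : ℝ) * ((ε i : ℝ) * x i) := by rw [← mul_assoc, h5, one_mul]
            _ = 0 := by rw [h6, mul_zero]
      rw [h1, h3]
      simp
    · rcases h i with h2 | h2
      · exact absurd h2 h1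
      · rw [h2]
        exact hx i

lemma exists_sle_of_isFaceOf {ε : Fin n → SignType} {τ : Set (Fin n → ℝ)}
    (h : IsFaceOf τ (cone ε)) (hne : τ.Nonempty) : ∃ ε', sle ε' ε ∧ τ = cone ε' := by
  classical
  obtain ⟨a, rfl⟩ := h
  obtain ⟨x₀, hx₀, hmax⟩ := hne
  -- the maximum is `0`
  have h0 : a ⬝ᵥ x₀ = 0 := by
    have h1 := hmax 0 (zero_mem_cone ε)
    have h2 := hmax (x₀ + x₀) (cone_add_mem hx₀ hx₀)
    rw [dotProduct_zero] at h1
    rw [dotProduct_add] at h2
    linarith
  -- `a i * ε i ≤ 0`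
  have hneg : ∀ i, a i * (ε i : ℝ) ≤ 0 := by
    intro i
    have h1 := hmax (Pi.single i (1 * (ε i : ℝ))) (single_mem_cone ε i zero_le_one)
    rw [h0, dotProduct_single, one_mul] at h1
    exact h1
  have hle : ∀ y ∈ cone ε, ∀ i, a i * y i ≤ 0 := by
    intro y hy i
    have h1 := hy i
    have h2 := hneg i
    revert h1 h2
    generalize ε i = b
    generalize y i = t
    generalize a i = c
    cases b
    · simp only [SignType.zero_eq_zero, SignType.coe_zero, zero_mul, le_refl, forall_const,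
        true_and, mul_zero]
      intro h
      rw [h, mul_zero]
    · simp
      intro h1 h2
      nlinarith
    · simp
      intro h1 h2
      nlinarith
  refine ⟨fun i => if a i = 0 then ε i else 0, ?_, ?_⟩
  · intro i
    by_cases h1 : a i = 0
    · exact Or.inr (if_pos h1)
    · exact Or.inl (if_neg h1)
  · ext x
    constructor
    · rintro ⟨hx, hm⟩
      have h1 := hm x₀ hx₀
      rw [h0] at h1
      have hsum : ∑ i, a i * x i = 0 :=
        le_antisymm (Finset.sum_nonpos fun i _ => hle x hx i) h1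
      have hz := (Finset.sum_eq_zero_iff_of_nonpos fun i _ => hle x hx i).1 hsum
      intro i
      by_cases h2 : a i = 0
      · simp only [if_pos h2]
        exact hx i
      · simp only [if_neg h2]
        have h3 := hz i (Finset.mem_univ i)
        have h4 : x i = 0 := (mul_eq_zero.1 h3).resolve_left h2
        rw [h4]
        simp
    · intro hx
      have hx' : x ∈ cone ε := by
        intro i
        have h1 := hx i
        by_cases h2 : a i = 0
        · simp only [if_pos h2] at h1
          exact h1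
        · simp only [if_neg h2] at h1
          rw [h1.2 trivial]
          simp
      refine ⟨hx', fun y hy => ?_⟩
      have h3 : a ⬝ᵥ x = 0 := by
        unfold dotProduct
        apply Finset.sum_eq_zero
        intro i _
        by_cases h2 : a i = 0
        · rw [h2, zero_mul]
        · have h1 := hx i
          simp only [if_neg h2] at h1
          rw [h1.2 trivial, mul_zero]
      rw [h3]
      exact Finset.sum_nonpos fun i _ => hle y hy i

/-- The integer vector with the coordinates of `ε` outside the support of `δ`. -/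
def nrm (δ ε : Fin n → SignType) : Fin n → ℤ := fun i => if δ i = 0 then (ε i : ℤ) else 0

lemma toR_nrm (δ ε : Fin n → SignType) (i : Fin n) :
    toR (nrm δ ε) i = if δ i = 0 then (ε i : ℝ) else 0 := by
  unfold toR nrm
  split_ifs
  · cases ε i <;> simp
  · simp

lemma isPrimitiveNormal {δ ε : Fin n → SignType} (h : sle δ ε) (hnum : num δ + 1 = num ε) :
    IsPrimitiveNormal (cone δ) (cone ε) (nrm δ ε) := by
  classical
  -- the new coordinate `j`
  have hsub : (Finset.univ.filter fun i => δ i ≠ 0) ⊆ (Finset.univ.filter fun i => ε i ≠ 0) := by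
    intro i hi
    rw [Finset.mem_filter] at hi ⊢
    rcases h i with h0 | h0
    · exact absurd h0 hi.2
    · exact ⟨Finset.mem_univ _, h0 ▸ hi.2⟩
  have hcard : ((Finset.univ.filter fun i => ε i ≠ 0) \
      (Finset.univ.filter fun i => δ i ≠ 0)).card = 1 := by
    rw [Finset.card_sdiff_of_subset hsub]
    unfold num at hnum
    omega
  obtain ⟨j, hj⟩ := Finset.card_eq_one.1 hcard
  have hj' : ∀ i, (ε i ≠ 0 ∧ δ i = 0) ↔ i = j := by
    intro i
    have := Finset.ext_iff.1 hj i
    simpa only [Finset.mem_sdiff, Finset.mem_filter, Finset.mem_univ, true_and, ne_eq, not_not,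
      Finset.mem_singleton] using this
  have hεj : ε j ≠ 0 := ((hj' j).2 rfl).1
  have hδj : δ j = 0 := ((hj' j).2 rfl).2
  have hεδ : ∀ i, i ≠ j → δ i = 0 → ε i = 0 := by
    intro i hi hδ
    by_contra hε
    exact hi ((hj' i).1 ⟨hε, hδ⟩)
  have hu : ∀ i, i ≠ j → nrm δ ε i = 0 := by
    intro i hi
    unfold nrm
    split_ifs with h0
    · rw [hεδ i hi h0]
      rfl
    · rfl
  have huj : nrm δ ε j = (ε j : ℤ) := if_pos hδj
  have hsq : (ε j : ℤ) * (ε j : ℤ) = 1 := by
    revert hεj
    cases ε j <;> simp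
  constructor
  · intro z
    simp only [mem_vectorSpan_cone]
    constructor
    · intro hz
      refine ⟨(ε j : ℤ) * z j, ?_⟩
      intro i hi
      have : (z - ((ε j : ℤ) * z j) • nrm δ ε) i = 0 := by
        simp only [Pi.sub_apply, Pi.smul_apply, smul_eq_mul]
        rcases eq_or_ne i j with rfl | hij
        · rw [huj]
          linear_combination (-(z i)) * hsq
        · rw [hu i hij, mul_zero, sub_zero]
          have := hz i (hεδ i hij hi)
          unfold toR at this
          exact_mod_cast this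
      unfold toR
      rw [this]
      simp
    · rintro ⟨m, hm⟩ i hi
      have hδi : δ i = 0 := by
        rcases h i with h0 | h0
        · exact h0
        · rw [h0, hi]
      have hij : i ≠ j := by
        rintro rfl
        exact hεj hi
      have h1 := hm i hδi
      unfold toR at h1 ⊢
      simp only [Pi.sub_apply, Pi.smul_apply, hu i hij, smul_zero, sub_zero] at h1
      exact h1
  · refine ⟨0, zero_mem_cone δ, 1, one_pos, ?_⟩
    rw [zero_add, one_smul]
    intro i
    rw [toR_nrm]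
    split_ifs with h0
    · constructor
      · exact mul_self_nonneg _
      · intro h1
        rw [h1]
        simp
    · simp

/-- Change all signs outside the support of `δ`. -/
def flip (δ ε : Fin n → SignType) : Fin n → SignType := fun i => if δ i = 0 then -ε i else ε i

lemma flip_flip (δ ε : Fin n → SignType) : flip δ (flip δ ε) = ε := by
  ext1 i
  unfold flip
  split_ifs <;> simp

lemma flip_eq_zero (δ ε : Fin n → SignType) (i : Fin n) : flip δ ε i = 0 ↔ ε i = 0 := by
  unfold flip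
  split_ifs
  · cases ε i <;> simp
  · rfl

lemma num_flip (δ ε : Fin n → SignType) : num (flip δ ε) = num ε := by
  unfold num
  congr 1
  ext i
  simp only [Finset.mem_filter, Finset.mem_univ, true_and, ne_eq, flip_eq_zero]

lemma sle_flip {δ ε : Fin n → SignType} (h : sle δ ε) : sle δ (flip δ ε) := by
  intro i
  by_cases h0 : δ i = 0
  · exact Or.inl h0
  · right
    unfold flip
    rw [if_neg h0]
    exact (h i).resolve_left h0

lemma nrm_flip (δ ε : Fin n → SignType) : nrm δ (flip δ ε) = -nrm δ ε := by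
  ext i
  unfold nrm flip
  simp only [Pi.neg_apply]
  split_ifs
  · cases ε i <;> simp
  · simp

/-- The fan of all orthants `cone ε` with `good ε`. -/
noncomputable def orthantFan (good : (Fin n → SignType) → Prop) (d : ℕ)
    (h_down : ∀ ε ε', sle ε' ε → good ε → good ε')
    (h_pure : ∀ ε, good ε → ∃ ε', good ε' ∧ num ε' = d ∧ sle ε ε')
    (h_supp : ∀ ε ε', (∀ i, ε' i = 0 ↔ ε i = 0) → good ε → good ε') : BalancedComplex n where
  cells := cone '' {ε | good ε}
  finite := (Set.toFinite _).image _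
  nonempty_cell := by
    rintro _ ⟨ε, _, rfl⟩
    exact ⟨0, zero_mem_cone ε⟩
  polyhedron := by
    rintro _ ⟨ε, _, rfl⟩
    exact cone_isPolyhedron ε
  rational := by
    rintro _ ⟨ε, _, rfl⟩
    exact cone_isRational ε
  face_mem := by
    rintro _ ⟨ε, hε, rfl⟩ τ hτ hne
    obtain ⟨ε', h1, rfl⟩ := exists_sle_of_isFaceOf hτ hne
    exact ⟨ε', h_down ε ε' h1 hε, rfl⟩
  inter_face := by
    rintro _ ⟨ε, hε, rfl⟩ _ ⟨ε', hε', rfl⟩ _
    rw [cone_inter]
    exact ⟨isFaceOf_of_sle (meet_sle_left ε ε'), isFaceOf_of_sle (meet_sle_right ε ε')⟩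
  d := d
  pure := by
    rintro _ ⟨ε, hε, rfl⟩
    obtain ⟨ε', h1, h2, h3⟩ := h_pure ε hε
    exact ⟨cone ε', ⟨ε', h1, rfl⟩, by rw [dim_cone, h2], cone_mono h3⟩
  weight := fun _ => 1
  weight_pos := fun _ _ _ => one_pos
  balanced := by
    classical
    rintro _ ⟨δ, hδ, rfl⟩ hdim
    rw [dim_cone] at hdim
    refine ⟨fun σ => nrm δ (Function.invFun cone σ), ?_, ?_⟩
    · rintro _ ⟨ε, hε, rfl⟩ hd hsub
      rw [dim_cone] at hd
      change IsPrimitiveNormal _ _ (nrm δ (Function.invFun cone (cone ε)))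
      rw [Function.leftInverse_invFun cone_injective ε]
      exact isPrimitiveNormal (sle_of_subset hsub) (by rw [hdim, hd])
    · set T : Set (Fin n → SignType) := {ε | good ε ∧ num ε = d ∧ sle δ ε} with hT
      have h1 : {σ | σ ∈ cone '' {ε | good ε} ∧ dim σ = d ∧ cone δ ⊆ σ} = cone '' T := by
        ext σ
        constructor
        · rintro ⟨⟨ε, hε, rfl⟩, hd, hs⟩
          exact ⟨ε, ⟨hε, by rwa [dim_cone] at hd, sle_of_subset hs⟩, rfl⟩
        · rintro ⟨ε, ⟨hε, hd, hs⟩, rfl⟩
          exact ⟨⟨ε, hε, rfl⟩, by rwa [dim_cone], cone_mono hs⟩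
      have h2 : ∑ᶠ σ ∈ {σ | σ ∈ cone '' {ε | good ε} ∧ dim σ = d ∧ cone δ ⊆ σ},
          1 • nrm δ (Function.invFun cone σ) = ∑ᶠ ε ∈ T, nrm δ ε := by
        rw [h1, finsum_mem_image cone_injective.injOn]
        apply finsum_mem_congr rfl
        intro ε _
        rw [Function.leftInverse_invFun cone_injective ε, one_smul]
      have h3 : ∑ᶠ ε ∈ T, nrm δ ε = ∑ᶠ ε ∈ T, -nrm δ ε := by
        apply finsum_mem_eq_of_bijOn (flip δ)
        · refine ⟨?_, ?_, ?_⟩
          · rintro ε ⟨hε, hd, hs⟩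
            exact ⟨h_supp ε _ (flip_eq_zero δ ε) hε, by rwa [num_flip], sle_flip hs⟩
          · intro a _ b _ hab
            rw [← flip_flip δ a, hab, flip_flip]
          · rintro ε ⟨hε, hd, hs⟩
            exact ⟨flip δ ε, ⟨h_supp ε _ (flip_eq_zero δ ε) hε, by rwa [num_flip], sle_flip hs⟩,
              flip_flip δ ε⟩
        · intro ε _
          rw [nrm_flip, neg_neg]
      have h4 : ∑ᶠ ε ∈ T, nrm δ ε = 0 := by
        rw [finsum_mem_neg_distrib (fun ε => nrm δ ε) (Set.toFinite T)] at h3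
        ext i
        have := congrFun h3 i
        rw [Pi.neg_apply] at this
        rw [Pi.zero_apply]
        omega
      rw [h2, h4]
      have h5 : toR (0 : Fin n → ℤ) = 0 := by
        ext i
        simp [toR]
      rw [h5]
      exact Submodule.zero_mem _

end orthant

/-! ### The two complexes -/

/-- The affine plane `{y₁ = 0, y₂ + y₃ = 1}`. -/
def L : Set (Fin 4 → ℝ) := {y | y 1 = 0 ∧ y 2 + y 3 = 1}

/-- The direction vectors of `L`. -/
def dirs : Fin 2 → (Fin 4 → ℤ) := ![![1, 0, 0, 0], ![0, 0, 1, -1]]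

lemma mem_L (a b : ℝ) : ![a, 0, 1 + b, -b] ∈ L := by
  constructor
  · rfl
  · change 1 + b + -b = 1
    ring

lemma vectorSpan_L : vectorSpan ℝ L = Submodule.span ℝ (Set.range fun i => toR (dirs i)) := by
  apply le_antisymm
  · rw [vectorSpan_def, Submodule.span_le]
    rintro _ ⟨p, hp, q, hq, rfl⟩
    have h1 : p -ᵥ q = (p 0 - q 0) • toR (dirs 0) + (p 2 - q 2) • toR (dirs 1) := by
      ext i
      fin_cases i
      · simp [toR, dirs]
      · simp [toR, dirs, hp.1, hq.1]
      · simp [toR, dirs]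
      · simp [toR, dirs]
        linarith [hp.2, hq.2]
    change p -ᵥ q ∈ _
    rw [h1]
    exact Submodule.add_mem _ (Submodule.smul_mem _ _ (Submodule.subset_span ⟨0, rfl⟩))
      (Submodule.smul_mem _ _ (Submodule.subset_span ⟨1, rfl⟩))
  · rw [Submodule.span_le]
    rintro _ ⟨i, rfl⟩
    rw [SetLike.mem_coe]
    fin_cases i
    · have h := vsub_mem_vectorSpan ℝ (mem_L 1 0) (mem_L 0 0)
      convert h using 1
      ext i
      fin_cases i <;> simp [toR, dirs]
    · have h := vsub_mem_vectorSpan ℝ (mem_L 0 1) (mem_L 0 0)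
      convert h using 1
      ext i
      fin_cases i <;> simp [toR, dirs]

lemma dim_L : dim L = 2 := by
  unfold dim
  rw [vectorSpan_L, finrank_span_eq_card]
  · simp
  · have h : (fun i => toR (dirs i)) = ![toR (dirs 0), toR (dirs 1)] := by
      ext i j
      fin_cases i <;> rfl
    rw [h, LinearIndependent.pair_iff]
    intro s t hst
    have h0 := congrFun hst 0
    have h2 := congrFun hst 2
    simp [toR, dirs] at h0 h2
    exact ⟨h0, h2⟩

lemma L_isPolyhedron : IsPolyhedron L := by
  refine ⟨{(![0, 1, 0, 0], 0), (![0, -1, 0, 0], 0), (![0, 0, 1, 1], 1), (![0, 0, -1, -1], -1)}, ?_⟩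
  ext y
  simp only [L, Set.mem_ofPred_eq, Finset.mem_insert, Finset.mem_singleton, forall_eq_or_imp,
    forall_eq, dotProduct, Fin.sum_univ_four]
  simp only [Matrix.cons_val_zero, Matrix.cons_val_one, Matrix.cons_val, zero_mul, one_mul,
    zero_add, add_zero, neg_mul]
  constructor
  · rintro ⟨h1, h2⟩
    refine ⟨h1.le, by linarith, by linarith, by linarith⟩
  · rintro ⟨h1, h2, h3, h4⟩
    exact ⟨by linarith, by linarith⟩

lemma face_L {τ : Set (Fin 4 → ℝ)} (h : IsFaceOf τ L) (hne : τ.Nonempty) : τ = L := by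
  obtain ⟨a, rfl⟩ := h
  obtain ⟨x, hx, hmax⟩ := hne
  -- `a` is constant on `L`
  have hconst : ∀ y ∈ L, a ⬝ᵥ y = a ⬝ᵥ x := by
    intro y hy
    apply le_antisymm (hmax y hy)
    have h1 : x + (x - y) ∈ L := by
      constructor
      · simp [hx.1, hy.1]
      · simp only [Pi.add_apply, Pi.sub_apply]
        linarith [hx.2, hy.2]
    have h2 := hmax _ h1
    rw [dotProduct_add, dotProduct_sub] at h2
    linarith
  ext y
  constructor
  · exact fun hy => hy.1
  · intro hy
    exact ⟨hy, fun z hz => by rw [hconst z hz, hconst y hy]⟩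

/-- The first complex: the single cell `L`. -/
def S₁ : BalancedComplex 4 where
  cells := {L}
  finite := Set.finite_singleton L
  nonempty_cell := by
    rintro _ rfl
    exact ⟨_, mem_L 0 0⟩
  polyhedron := by
    rintro _ rfl
    exact L_isPolyhedron
  rational := by
    rintro _ rfl
    refine ⟨Set.range dirs, ?_⟩
    rw [vectorSpan_L, ← Set.range_comp]
    rfl
  face_mem := by
    rintro _ rfl τ hτ hne
    exact face_L hτ hne
  inter_face := by
    rintro _ rfl _ rfl _
    rw [Set.inter_self]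
    have : IsFaceOf L L := ⟨0, by simp⟩
    exact ⟨this, this⟩
  d := 2
  pure := by
    rintro _ rfl
    exact ⟨L, rfl, dim_L, subset_rfl⟩
  weight := fun _ => 1
  weight_pos := fun _ _ _ => one_pos
  balanced := by
    rintro _ rfl h
    rw [dim_L] at h
    omega

/-- The sign vectors of the cones of `S₂`: the support is contained in `{0, 2}`, `{0, 1}` or
`{1, 3}`. -/
def good (ε : Fin 4 → SignType) : Prop :=
  (ε 1 = 0 ∧ ε 3 = 0) ∨ (ε 2 = 0 ∧ ε 3 = 0) ∨ (ε 0 = 0 ∧ ε 2 = 0)

lemma good_down (ε ε' : Fin 4 → SignType) (h : sle ε' ε) (hε : good ε) : good ε' := by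
  have hz : ∀ i, ε i = 0 → ε' i = 0 := by
    intro i hi
    rcases h i with h0 | h0
    · exact h0
    · rw [h0, hi]
  rcases hε with ⟨h1, h2⟩ | ⟨h1, h2⟩ | ⟨h1, h2⟩
  · exact Or.inl ⟨hz _ h1, hz _ h2⟩
  · exact Or.inr (Or.inl ⟨hz _ h1, hz _ h2⟩)
  · exact Or.inr (Or.inr ⟨hz _ h1, hz _ h2⟩)

lemma good_supp (ε ε' : Fin 4 → SignType) (h : ∀ i, ε' i = 0 ↔ ε i = 0) (hε : good ε) :
    good ε' := by
  unfold good at *
  rw [h, h, h, h]
  exact hε

/-- Replace `0` by `1`. -/
def fill (s : SignType) : SignType := if s = 0 then 1 else s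

lemma fill_ne_zero (s : SignType) : fill s ≠ 0 := by
  cases s <;> decide

lemma eq_zero_or_fill (s : SignType) : s = 0 ∨ s = fill s := by
  cases s <;> decide

lemma good_pure (ε : Fin 4 → SignType) (hε : good ε) :
    ∃ ε', good ε' ∧ num ε' = 2 ∧ sle ε ε' := by
  rcases hε with ⟨h1, h2⟩ | ⟨h1, h2⟩ | ⟨h1, h2⟩
  · refine ⟨![fill (ε 0), 0, fill (ε 2), 0], Or.inl ⟨rfl, rfl⟩, ?_, ?_⟩
    · generalize ε 0 = a
      generalize ε 2 = b
      revert a b
      decide
    · intro i
      fin_cases i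
      · exact eq_zero_or_fill _
      · exact Or.inl h1
      · exact eq_zero_or_fill _
      · exact Or.inl h2
  · refine ⟨![fill (ε 0), fill (ε 1), 0, 0], Or.inr (Or.inl ⟨rfl, rfl⟩), ?_, ?_⟩
    · generalize ε 0 = a
      generalize ε 1 = b
      revert a b
      decide
    · intro i
      fin_cases i
      · exact eq_zero_or_fill _
      · exact eq_zero_or_fill _
      · exact Or.inl h1
      · exact Or.inl h2
  · refine ⟨![0, fill (ε 1), 0, fill (ε 3)], Or.inr (Or.inr ⟨rfl, rfl⟩), ?_, ?_⟩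
    · generalize ε 1 = a
      generalize ε 3 = b
      revert a b
      decide
    · intro i
      fin_cases i
      · exact Or.inl h1
      · exact eq_zero_or_fill _
      · exact Or.inl h2
      · exact eq_zero_or_fill _

/-- The second complex: the fan of the orthants of three coordinate planes. -/
noncomputable def S₂ : BalancedComplex 4 := orthantFan good 2 good_down good_pure good_supp

/-! ### Connectedness through codimension one -/

lemma S₁_connected : S₁.ConnectedThroughCodimOne := by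
  rintro _ rfl _ _ rfl _
  exact Relation.ReflTransGen.refl

instance : DecidablePred good := fun ε => by
  unfold good
  infer_instance

instance : DecidableRel (sle : (Fin 4 → SignType) → (Fin 4 → SignType) → Prop) := fun ε ε' => by
  unfold sle
  infer_instance

/-- `ε` and `ε'` are sign vectors of two-dimensional cones with the common ray `δ`. -/
def Adj (ε ε' δ : Fin 4 → SignType) : Prop :=
  good ε ∧ num ε = 2 ∧ good ε' ∧ num ε' = 2 ∧ good δ ∧ num δ = 1 ∧ sle δ ε ∧ sle δ ε'

instance (ε ε' δ : Fin 4 → SignType) : Decidable (Adj ε ε' δ) := by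
  unfold Adj
  infer_instance

lemma adjacent_of_adj {ε ε' δ : Fin 4 → SignType} (h : Adj ε ε' δ) :
    S₂.Adjacent (cone ε) (cone ε') := by
  obtain ⟨h1, h2, h3, h4, h5, h6, h7, h8⟩ := h
  exact ⟨⟨⟨ε, h1, rfl⟩, by rw [dim_cone, h2]; rfl⟩, ⟨⟨ε', h3, rfl⟩, by rw [dim_cone, h4]; rfl⟩,
    cone δ, ⟨δ, h5, rfl⟩, by rw [dim_cone, h6]; rfl, cone_mono h7, cone_mono h8⟩

lemma exists_path (ε : Fin 4 → SignType) (hε : good ε) (hnum : num ε = 2) :
    ∃ ε' δ δ', Adj ε ε' δ ∧ Adj ε' ![1, 1, 0, 0] δ' := by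
  have heta : ε = ![ε 0, ε 1, ε 2, ε 3] := by
    ext1 i
    fin_cases i <;> rfl
  rcases hε with ⟨h1, h2⟩ | ⟨h1, h2⟩ | ⟨h1, h2⟩
  · rw [h1, h2] at heta
    rw [heta] at hnum ⊢
    refine ⟨![ε 0, 1, 0, 0], ![ε 0, 0, 0, 0], ![0, 1, 0, 0], ?_⟩
    revert hnum
    generalize ε 0 = a
    generalize ε 2 = b
    revert a b
    decide
  · rw [h1, h2] at heta
    rw [heta] at hnum ⊢
    refine ⟨![ε 0, 1, 0, 0], ![ε 0, 0, 0, 0], ![0, 1, 0, 0], ?_⟩
    revert hnum
    generalize ε 0 = a
    generalize ε 1 = b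
    revert a b
    decide
  · rw [h1, h2] at heta
    rw [heta] at hnum ⊢
    refine ⟨![1, ε 1, 0, 0], ![0, ε 1, 0, 0], ![1, 0, 0, 0], ?_⟩
    revert hnum
    generalize ε 1 = a
    generalize ε 3 = b
    revert a b
    decide

lemma S₂_connected : S₂.ConnectedThroughCodimOne := by
  have key : ∀ σ ∈ S₂.cells, dim σ = S₂.d →
      Relation.ReflTransGen S₂.Adjacent σ (cone ![1, 1, 0, 0]) ∧
      Relation.ReflTransGen S₂.Adjacent (cone ![1, 1, 0, 0]) σ := by
    rintro _ ⟨ε, hε, rfl⟩ hd
    rw [dim_cone] at hd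
    obtain ⟨ε', δ, δ', h1, h2⟩ := exists_path ε hε hd
    have hsymm : ∀ {a b c : Fin 4 → SignType}, Adj a b c → Adj b a c := by
      rintro a b c ⟨g1, g2, g3, g4, g5, g6, g7, g8⟩
      exact ⟨g3, g4, g1, g2, g5, g6, g8, g7⟩
    constructor
    · exact (Relation.ReflTransGen.single (adjacent_of_adj h1)).tail (adjacent_of_adj h2)
    · exact (Relation.ReflTransGen.single (adjacent_of_adj (hsymm h2))).tail
        (adjacent_of_adj (hsymm h1))
  intro σ hσ hd σ' hσ' hd'
  exact (key σ hσ hd).1.trans (key σ' hσ' hd').2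

/-! ### The stable intersection -/

lemma dim_lt {ε : Fin 4 → SignType} (h : ε 1 = 0) : dim (L + cone ε) ≠ 4 := by
  intro hd
  have htop : vectorSpan ℝ (L + cone ε) = ⊤ := by
    apply Submodule.eq_top_of_finrank_eq
    rw [Module.finrank_fin_fun]
    exact hd
  have hle : vectorSpan ℝ (L + cone ε) ≤
      LinearMap.ker (LinearMap.proj 1 : (Fin 4 → ℝ) →ₗ[ℝ] ℝ) := by
    rw [vectorSpan_def, Submodule.span_le]
    rintro _ ⟨_, ⟨p, hp, q, hq, rfl⟩, _, ⟨p', hp', q', hq', rfl⟩, rfl⟩
    simp only [SetLike.mem_coe, LinearMap.mem_ker, LinearMap.proj_apply]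
    change (p 1 + q 1) - (p' 1 + q' 1) = 0
    rw [hp.1, hp'.1, (hq 1).2 h, (hq' 1).2 h]
    ring
  rw [htop] at hle
  have h1 : (Pi.single 1 1 : Fin 4 → ℝ) ∈
      LinearMap.ker (LinearMap.proj 1 : (Fin 4 → ℝ) →ₗ[ℝ] ℝ) := hle Submodule.mem_top
  simp at h1

lemma dim_eq : dim (L + cone ![0, 1, 0, 1]) = 4 := by
  have hmem : ∀ a b c d : ℝ, 0 ≤ c → 0 ≤ d →
      (![a, c, 1 + b, -b + d] : Fin 4 → ℝ) ∈ L + cone ![0, 1, 0, 1] := by
    intro a b c d hc hd
    refine ⟨![a, 0, 1 + b, -b], mem_L a b, ![0, c, 0, d], ?_, ?_⟩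
    · intro i
      fin_cases i
      · simp
      · simpa using hc
      · simp
      · simpa using hd
    · ext i
      fin_cases i <;> simp
  have hspan : vectorSpan ℝ (L + cone ![0, 1, 0, 1]) = ⊤ := by
    rw [eq_top_iff]
    intro y _
    have h0 := vsub_mem_vectorSpan ℝ (hmem 1 0 0 0 le_rfl le_rfl) (hmem 0 0 0 0 le_rfl le_rfl)
    have h1 := vsub_mem_vectorSpan ℝ (hmem 0 0 1 0 zero_le_one le_rfl) (hmem 0 0 0 0 le_rfl le_rfl)
    have h2 := vsub_mem_vectorSpan ℝ (hmem 0 1 0 0 le_rfl le_rfl) (hmem 0 0 0 0 le_rfl le_rfl)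
    have h3 := vsub_mem_vectorSpan ℝ (hmem 0 0 0 1 le_rfl zero_le_one) (hmem 0 0 0 0 le_rfl le_rfl)
    have hy : y = y 0 • ((![1, 0, 1 + 0, -0 + 0] : Fin 4 → ℝ) -ᵥ ![0, 0, 1 + 0, -0 + 0]) +
        y 1 • ((![0, 1, 1 + 0, -0 + 0] : Fin 4 → ℝ) -ᵥ ![0, 0, 1 + 0, -0 + 0]) +
        y 2 • ((![0, 0, 1 + 1, -1 + 0] : Fin 4 → ℝ) -ᵥ ![0, 0, 1 + 0, -0 + 0]) +
        (y 3 + y 2) • ((![0, 0, 1 + 0, -0 + 1] : Fin 4 → ℝ) -ᵥ ![0, 0, 1 + 0, -0 + 0]) := by
      ext i
      fin_cases i <;> simp
    rw [hy]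
    exact Submodule.add_mem _ (Submodule.add_mem _ (Submodule.add_mem _
      (Submodule.smul_mem _ _ h0) (Submodule.smul_mem _ _ h1)) (Submodule.smul_mem _ _ h2))
      (Submodule.smul_mem _ _ h3)
  unfold dim
  rw [hspan, finrank_top, Module.finrank_fin_fun]

/-- There are balanced polyhedral complexes `S₁`, `S₂` in `ℝ⁴`, both connected through
codimension one, with nonempty stable intersection such that some connected component of
`|S₁| ∩ |S₂|` contains no point of the stable intersection. -/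
theorem result : ∃ S₁ S₂ : BalancedComplex 4,
    S₁.ConnectedThroughCodimOne ∧ S₂.ConnectedThroughCodimOne ∧
    (S₁.stableSupport S₂).Nonempty ∧
    ∃ x ∈ S₁.support ∩ S₂.support,
      Disjoint (connectedComponentIn (S₁.support ∩ S₂.support) x) (S₁.stableSupport S₂) := by
  refine ⟨S₁, S₂, S₁_connected, S₂_connected, ?_, ![0, 0, 1, 0], ?_, ?_⟩
  · refine ⟨![0, 0, 0, 1], L, rfl, cone ![0, 1, 0, 1], ⟨_, Or.inr (Or.inr ⟨rfl, rfl⟩), rfl⟩,
      dim_eq, ?_, ?_⟩
    · constructor
      · rfl
      · simp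
    · intro i
      fin_cases i <;> simp
  · constructor
    · refine ⟨L, rfl, ?_⟩
      constructor
      · rfl
      · simp
    · refine ⟨cone ![1, 0, 1, 0], ⟨_, Or.inl ⟨rfl, rfl⟩, rfl⟩, ?_⟩
      intro i
      fin_cases i <;> simp
  · -- the third coordinate takes only the values `0` and `1`
    have hval : ∀ y ∈ S₁.support ∩ S₂.support, y 2 = 0 ∨ y 2 = 1 := by
      rintro y ⟨⟨_, rfl, h1, h2⟩, _, ⟨ε, hε, rfl⟩, hy⟩
      rcases hε with ⟨_, h4⟩ | ⟨h3, h4⟩ | ⟨_, h4⟩
      · right
        have := (hy 3).2 h4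
        linarith
      · have h5 := (hy 2).2 h3
        have h6 := (hy 3).2 h4
        linarith
      · left
        exact (hy 2).2 h4
    set S := S₁.support ∩ S₂.support with hS
    have hx : (![0, 0, 1, 0] : Fin 4 → ℝ) ∈ S := by
      constructor
      · refine ⟨L, rfl, ?_⟩
        constructor
        · rfl
        · simp
      · refine ⟨cone ![1, 0, 1, 0], ⟨_, Or.inl ⟨rfl, rfl⟩, rfl⟩, ?_⟩
        intro i
        fin_cases i <;> simp
    have hpre : IsPreconnected ((fun y : Fin 4 → ℝ => y 2) ''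
        connectedComponentIn S ![0, 0, 1, 0]) :=
      isPreconnected_connectedComponentIn.image _ (continuous_apply 2).continuousOn
    have hone : ∀ y ∈ connectedComponentIn S ![0, 0, 1, 0], y 2 = 1 := by
      intro y hy
      rcases hval y (connectedComponentIn_subset _ _ hy) with h0 | h1
      · exfalso
        have hm0 : (0 : ℝ) ∈ (fun y : Fin 4 → ℝ => y 2) ''
            connectedComponentIn S ![0, 0, 1, 0] := ⟨y, hy, h0⟩
        have hm1 : (1 : ℝ) ∈ (fun y : Fin 4 → ℝ => y 2) ''
            connectedComponentIn S ![0, 0, 1, 0] :=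
          ⟨_, mem_connectedComponentIn hx, rfl⟩
        have hhalf : (1 / 2 : ℝ) ∈ (fun y : Fin 4 → ℝ => y 2) ''
            connectedComponentIn S ![0, 0, 1, 0] :=
          hpre.Icc_subset hm0 hm1 ⟨by norm_num, by norm_num⟩
        obtain ⟨z, hz, hz2⟩ := hhalf
        rcases hval z (connectedComponentIn_subset _ _ hz) with h | h
        · simp only at hz2
          rw [h] at hz2
          norm_num at hz2
        · simp only at hz2
          rw [h] at hz2
          norm_num at hz2
      · exact h1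
    rw [Set.disjoint_left]
    rintro y hy ⟨_, rfl, _, ⟨ε, hε, rfl⟩, hd, _, hyc⟩
    have hy2 := hone y hy
    have hε2 : ε 2 ≠ 0 := by
      intro h
      rw [(hyc 2).2 h] at hy2
      exact zero_ne_one hy2
    rcases hε with ⟨h3, _⟩ | ⟨h3, _⟩ | ⟨_, h3⟩
    · exact dim_lt h3 hd
    · exact hε2 h3
    · exact hε2 h3

end Pool.Agent.Results.MP_7d0545_co.NoStablePoint
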